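import Pool.Agent.Helper46.MF.Part
import Pool.Agent.Helper59.MF.Defs

/-!
# Dyadic cells adapted to a family of convex functions
-/

set_option autoImplicit false

namespace Pool.Agent.Helper46.MF

open Finset MeasureTheory Filter Topology
open Pool.Agent.Helper59.MF

variable {a b θ₀ B C : ℝ} {f f1 f2 : ℕ → ℝ → ℝ}

/-- dyadic digits -/
noncomputable def Dg (j : ℕ) (x : ℝ) : ℤ := ⌊x * 2 ^ j⌋

/-- the right end of the dyadic interval of `x` -/
noncomputable def Rg (j : ℕ) (x : ℝ) : ℝ := ((Dg j x : ℝ) + 1) / 2 ^ j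

/-- the left end of the dyadic interval of `x` -/
noncomputable def Lg (j : ℕ) (x : ℝ) : ℝ := (Dg j x : ℝ) / 2 ^ j

theorem Dg_half (j : ℕ) (x : ℝ) : Dg j x = Dg (j + 1) x / 2 := by
  have h1 : (Dg j x : ℝ) ≤ x * 2 ^ j := Int.floor_le (x * 2 ^ j)
  have h2 : x * 2 ^ j < Dg j x + 1 := Int.lt_floor_add_one (x * 2 ^ j)
  have h3 : (Dg (j + 1) x : ℝ) ≤ x * 2 ^ (j + 1) := Int.floor_le (x * 2 ^ (j + 1))
  have h4 : x * 2 ^ (j + 1) < Dg (j + 1) x + 1 := Int.lt_floor_add_one (x * 2 ^ (j + 1))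
  rw [pow_succ, ← mul_assoc] at h3 h4
  have h5 : 2 * Dg j x < Dg (j + 1) x + 1 := by
    have : ((2 * Dg j x : ℤ) : ℝ) < ((Dg (j + 1) x + 1 : ℤ) : ℝ) := by
      push_cast
      linarith
    exact_mod_cast this
  have h6 : Dg (j + 1) x < 2 * Dg j x + 2 := by
    have : ((Dg (j + 1) x : ℤ) : ℝ) < ((2 * Dg j x + 2 : ℤ) : ℝ) := by
      push_cast
      linarith
    exact_mod_cast this
  omega

theorem Dg_le {i j : ℕ} (hij : i ≤ j) {x y : ℝ} (h : Dg j y = Dg j x) : Dg i y = Dg i x := by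
  induction j, hij using Nat.le_induction with
  | base => exact h
  | succ j _ ih =>
    apply ih
    rw [Dg_half j y, Dg_half j x, h]

theorem Lg_le (j : ℕ) (x : ℝ) : Lg j x ≤ x := by
  unfold Lg
  rw [div_le_iff₀ (by positivity)]
  exact Int.floor_le (x * 2 ^ j)

theorem lt_Rg (j : ℕ) (x : ℝ) : x < Rg j x := by
  unfold Rg
  rw [lt_div_iff₀ (by positivity)]
  exact Int.lt_floor_add_one (x * 2 ^ j)

theorem Rg_sub (j : ℕ) (x : ℝ) : Rg j x - Lg j x = (2 ^ j)⁻¹ := by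
  unfold Rg Lg
  field_simp
  ring

theorem Dg_iff (j : ℕ) (x y : ℝ) : Dg j y = Dg j x ↔ y ∈ Set.Ico (Lg j x) (Rg j x) := by
  unfold Lg Rg
  rw [Set.mem_Ico, div_le_iff₀ (by positivity), lt_div_iff₀ (by positivity)]
  exact Int.floor_eq_iff

theorem Rg_succ (j : ℕ) (x : ℝ) : Rg (j + 1) x ≤ Rg j x := by
  have h1 : Dg (j + 1) x ≤ 2 * Dg j x + 1 := by
    have := Dg_half j x
    omega
  have h2 : (Dg (j + 1) x : ℝ) ≤ 2 * Dg j x + 1 := by exact_mod_cast h1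
  unfold Rg
  rw [pow_succ, div_le_div_iff₀ (by positivity) (by positivity)]
  have h3 : (0 : ℝ) < 2 ^ j := by positivity
  nlinarith

/-- the derivative continued by constants -/
noncomputable def ft (a b : ℝ) (f1 : ℕ → ℝ → ℝ) (n : ℕ) (t : ℝ) : ℝ := f1 n (max a (min b t))

theorem clamp_mem (hab : a < b) (t : ℝ) : max a (min b t) ∈ Set.Icc a b :=
  ⟨le_max_left _ _, max_le hab.le (min_le_left _ _)⟩

theorem ft_eq {t : ℝ} (ht : t ∈ Set.Icc a b) (n : ℕ) : ft a b f1 n t = f1 n t := by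
  unfold ft
  rw [min_eq_right ht.2, max_eq_right ht.1]

theorem f1_mono (hf : Fam a b θ₀ B C f f1 f2) (n : ℕ) : MonotoneOn (f1 n) (Set.Icc a b) := by
  apply monotoneOn_of_deriv_nonneg (convex_Icc a b)
  · exact fun x hx => (hf.d2 n x hx).continuousAt.continuousWithinAt
  · intro x hx
    rw [interior_Icc] at hx
    exact (hf.d2 n x (Set.Ioo_subset_Icc_self hx)).differentiableAt.differentiableWithinAt
  · intro x hx
    rw [interior_Icc] at hx
    rw [(hf.d2 n x (Set.Ioo_subset_Icc_self hx)).deriv]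
    exact hf.p2 n x (Set.Ioo_subset_Icc_self hx)

theorem ft_mono (hf : Fam a b θ₀ B C f f1 f2) (n : ℕ) : Monotone (ft a b f1 n) := fun s t hst =>
  f1_mono hf n (clamp_mem hf.hab s) (clamp_mem hf.hab t) (max_le_max_left _ (min_le_min_left _ hst))

theorem f1_pow (hf : Fam a b θ₀ B C f f1 f2) (n : ℕ) {x : ℝ} (hx : x ∈ Set.Icc a b) : θ₀ ^ n ≤ f1 n x := by
  induction n with
  | zero => simpa using hf.p0 x hx
  | succ n ih =>
    rw [pow_succ, mul_comm]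
    exact (mul_le_mul_of_nonneg_left ih (zero_le_one.trans hf.hθ.le)).trans (hf.g1 n x hx)

theorem f1_add (hf : Fam a b θ₀ B C f f1 f2) (n k : ℕ) {x : ℝ} (hx : x ∈ Set.Icc a b) :
    θ₀ ^ k * f1 n x ≤ f1 (n + k) x := by
  induction k with
  | zero => simp
  | succ k ih =>
    rw [pow_succ, mul_comm (θ₀ ^ k), mul_assoc]
    exact (mul_le_mul_of_nonneg_left ih (zero_le_one.trans hf.hθ.le)).trans (hf.g1 (n + k) x hx)

theorem ft_succ (hf : Fam a b θ₀ B C f f1 f2) (n : ℕ) (t : ℝ) : ft a b f1 n t ≤ ft a b f1 (n + 1) t := by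
  have h1 := hf.g1 n _ (clamp_mem hf.hab t)
  have h2 := f1_pow hf n (clamp_mem hf.hab t)
  have h3 : 0 < θ₀ ^ n := pow_pos (zero_lt_one.trans hf.hθ) n
  unfold ft
  nlinarith [hf.hθ]

/-- the dyadic interval of `x` of level `j` is small for `f n` -/
def Cnd (a b η : ℝ) (f1 : ℕ → ℝ → ℝ) (n j : ℕ) (x : ℝ) : Prop := ft a b f1 n (Rg j x) ≤ η * 2 ^ j

theorem Cnd_succ (hf : Fam a b θ₀ B C f f1 f2) {η : ℝ} (hη : 0 < η) {n j : ℕ} {x : ℝ} (h : Cnd a b η f1 n j x) :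
    Cnd a b η f1 n (j + 1) x := by
  unfold Cnd at h ⊢
  refine (ft_mono hf n (Rg_succ j x)).trans (h.trans ?_)
  rw [pow_succ]
  have : 0 < η * 2 ^ j := by positivity
  nlinarith

theorem Cnd_ex (hf : Fam a b θ₀ B C f f1 f2) {η : ℝ} (hη : 0 < η) (n : ℕ) (x : ℝ) : ∃ j, Cnd a b η f1 n j x := by
  obtain ⟨j, hj⟩ := pow_unbounded_of_one_lt (f1 n b / η) (show (1 : ℝ) < 2 by norm_num)
  refine ⟨j, ?_⟩
  unfold Cnd
  rw [div_lt_iff₀ hη] at hj
  have h1 : ft a b f1 n (Rg j x) ≤ f1 n b :=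
    f1_mono hf n (clamp_mem hf.hab _) ⟨hf.hab.le, le_rfl⟩ (clamp_mem hf.hab _).2
  linarith

theorem Cnd_pred (hf : Fam a b θ₀ B C f f1 f2) {η : ℝ} {n j : ℕ} {x : ℝ} (h : Cnd a b η f1 (n + 1) j x) :
    Cnd a b η f1 n j x := (ft_succ hf n _).trans h

theorem Cnd_congr {η : ℝ} {n j : ℕ} {x y : ℝ} (h : Dg j y = Dg j x) : Cnd a b η f1 n j y ↔ Cnd a b η f1 n j x := by
  unfold Cnd Rg
  rw [h]

open Classical in
/-- the level of the cell -/
noncomputable def jn (hf : Fam a b θ₀ B C f f1 f2) {η : ℝ} (hη : 0 < η) (n : ℕ) (x : ℝ) : ℕ := Nat.find (Cnd_ex hf hη n x)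

theorem jn_spec (hf : Fam a b θ₀ B C f f1 f2) {η : ℝ} (hη : 0 < η) (n : ℕ) (x : ℝ) :
    Cnd a b η f1 n (jn hf hη n x) x := by
  classical
  exact Nat.find_spec (Cnd_ex hf hη n x)

theorem jn_min (hf : Fam a b θ₀ B C f f1 f2) {η : ℝ} (hη : 0 < η) {n j : ℕ} {x : ℝ} (h : j < jn hf hη n x) :
    ¬ Cnd a b η f1 n j x := by
  classical
  exact Nat.find_min (Cnd_ex hf hη n x) h

theorem jn_le (hf : Fam a b θ₀ B C f f1 f2) {η : ℝ} (hη : 0 < η) {n j : ℕ} {x : ℝ} (h : Cnd a b η f1 n j x) :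
    jn hf hη n x ≤ j := by
  by_contra h'
  exact jn_min hf hη (not_le.1 h') h

theorem jn_succ (hf : Fam a b θ₀ B C f f1 f2) {η : ℝ} (hη : 0 < η) (n : ℕ) (x : ℝ) :
    jn hf hη n x ≤ jn hf hη (n + 1) x := jn_le hf hη (Cnd_pred hf (jn_spec hf hη (n + 1) x))

theorem jn_mono (hf : Fam a b θ₀ B C f f1 f2) {η : ℝ} (hη : 0 < η) (x : ℝ) {l n : ℕ} (h : l ≤ n) :
    jn hf hη l x ≤ jn hf hη n x := monotone_nat_of_le_succ (f := fun n => jn hf hη n x) (fun n => jn_succ hf hη n x) h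

/-- the cell of `x` -/
noncomputable def cell (hf : Fam a b θ₀ B C f f1 f2) {η : ℝ} (hη : 0 < η) (n : ℕ) (x : ℝ) : ℕ × ℤ :=
  (jn hf hη n x, Dg (jn hf hη n x) x)

theorem cell_of (hf : Fam a b θ₀ B C f f1 f2) {η : ℝ} (hη : 0 < η) {n : ℕ} {x y : ℝ}
    (h : Dg (jn hf hη n x) y = Dg (jn hf hη n x) x) : cell hf hη n y = cell hf hη n x := by
  have h1 : jn hf hη n y = jn hf hη n x := by
    apply le_antisymm
    · apply jn_le
      rw [Cnd_congr h]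
      exact jn_spec hf hη n x
    · by_contra h'
      have h' := not_le.1 h'
      apply jn_min hf hη h'
      rw [← Cnd_congr (Dg_le h'.le h)]
      exact jn_spec hf hη n y
  unfold cell
  rw [h1, h]

theorem Dg_of_cell (hf : Fam a b θ₀ B C f f1 f2) {η : ℝ} (hη : 0 < η) {n : ℕ} {x y : ℝ}
    (h : cell hf hη n y = cell hf hη n x) : Dg (jn hf hη n x) y = Dg (jn hf hη n x) x := by
  unfold cell at h
  rw [Prod.mk.injEq] at h
  rw [← h.2, h.1]

theorem cell_nest (hf : Fam a b θ₀ B C f f1 f2) {η : ℝ} (hη : 0 < η) {l n : ℕ} (hln : l ≤ n) {x y : ℝ}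
    (h : cell hf hη n y = cell hf hη n x) : cell hf hη l y = cell hf hη l x :=
  cell_of hf hη (Dg_le (jn_mono hf hη x hln) (Dg_of_cell hf hη h))

theorem cell_fib (hf : Fam a b θ₀ B C f f1 f2) {η : ℝ} (hη : 0 < η) (n : ℕ) (x : ℝ) :
    cell hf hη n ⁻¹' {cell hf hη n x} = Set.Ico (Lg (jn hf hη n x) x) (Rg (jn hf hη n x) x) := by
  ext y
  rw [← Dg_iff]
  exact ⟨fun h => Dg_of_cell hf hη h, fun h => cell_of hf hη h⟩

theorem cell_meas (hf : Fam a b θ₀ B C f f1 f2) {η : ℝ} (hη : 0 < η) (n : ℕ) (i : ℕ × ℤ) :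
    MeasurableSet (cell hf hη n ⁻¹' {i}) := by
  rcases Set.eq_empty_or_nonempty (cell hf hη n ⁻¹' {i}) with he | ⟨x, hx⟩
  · rw [he]
    exact MeasurableSet.empty
  · have hx' : cell hf hη n x = i := hx
    rw [← hx', cell_fib]
    exact measurableSet_Ico

/-- the functions vary little on the cells -/
theorem cell_osc (hf : Fam a b θ₀ B C f f1 f2) {η : ℝ} (hη : 0 < η) (k r : ℕ) {x y : ℝ}
    (hx : x ∈ Set.Icc a b) (hy : y ∈ Set.Icc a b) (h : cell hf hη (k + r) y = cell hf hη (k + r) x) :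
    |f k x - f k y| ≤ η * (θ₀⁻¹) ^ r := by
  -- by symmetry y ≤ x
  wlog hyx : y ≤ x generalizing x y
  · rw [abs_sub_comm]
    exact this hy hx h.symm (le_of_lt (not_le.1 hyx))
  have hθ : 0 < θ₀ := zero_lt_one.trans hf.hθ
  rcases eq_or_lt_of_le hyx with rfl | hlt
  · rw [sub_self, abs_zero]
    positivity
  have hsub : Set.Icc y x ⊆ Set.Icc a b := Set.Icc_subset_Icc hy.1 hx.2
  obtain ⟨ξ, hξ, hξ'⟩ := exists_hasDerivAt_eq_slope (f k) (f1 k) hlt (hf.cf k).continuousOn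
    fun t ht => hf.d1 k t (hsub (Set.Ioo_subset_Icc_self ht))
  have hξm : ξ ∈ Set.Icc a b := hsub (Set.Ioo_subset_Icc_self hξ)
  have h1 := f1_add hf k r hξm
  obtain ⟨j, hj⟩ : ∃ j, j = jn hf hη (k + r) x := ⟨_, rfl⟩
  have h2 := jn_spec hf hη (k + r) x
  rw [← hj] at h2
  have h3 : f1 (k + r) ξ ≤ η * 2 ^ j := by
    rw [← ft_eq (f1 := f1) hξm (k + r)]
    exact (ft_mono hf (k + r) (hξ.2.le.trans (lt_Rg j x).le)).trans h2
  have h4 : x - y ≤ (2 ^ j)⁻¹ := by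
    have h5 : y ∈ Set.Ico (Lg j x) (Rg j x) := by
      rw [← Dg_iff, hj]
      exact Dg_of_cell hf hη h
    have h6 := Rg_sub j x
    have h7 := lt_Rg j x
    linarith [h5.1]
  have h5 : 0 < x - y := sub_pos.2 hlt
  have h6 : f k x - f k y = f1 k ξ * (x - y) := by
    rw [hξ']
    field_simp
  have h7 : 0 < f1 k ξ := (pow_pos hθ k).trans_le (f1_pow hf k hξm)
  rw [h6, abs_of_pos (mul_pos h7 h5)]
  have h8 : f1 k ξ ≤ (η * 2 ^ j) * (θ₀⁻¹) ^ r := by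
    rw [inv_pow, ← div_eq_mul_inv, le_div_iff₀ (by positivity), mul_comm]
    exact h1.trans h3
  calc f1 k ξ * (x - y) ≤ ((η * 2 ^ j) * (θ₀⁻¹) ^ r) * (2 ^ j)⁻¹ := mul_le_mul h8 h4 h5.le (by positivity)
    _ = η * (θ₀⁻¹) ^ r := by
      field_simp

end Pool.Agent.Helper46.MF
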