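import Pool.Agent.Helper46.MF.Cells
import Pool.Agent.Helper46.HQ.AS

/-!
# The law of large numbers for exponential sums at the points of a measure
-/

set_option autoImplicit false

namespace Pool.Agent.Helper46.MF

open Finset MeasureTheory Filter Topology
open Pool.Agent.Helper59.MF
open Pool.Agent.Helper59.RE (e norm_e e_add e_sub conj_e continuous_e e_zero norm_e_sub)

variable {a b θ₀ B C : ℝ} {f f1 f2 : ℕ → ℝ → ℝ}

/-- the sum of the deviations from the averages over the cells is small almost everywhere -/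
theorem dev_small (hf : Fam a b θ₀ B C f f1 f2) (μ : Measure ℝ) [IsProbabilityMeasure μ]
    (hμ : μ (Set.Icc a b)ᶜ = 0) {η : ℝ} (hη : 0 < η) (hη1 : η ≤ 1) (m : ℕ) (h : ℤ) :
    ∀ᵐ x ∂μ, ∀ ε : ℝ, 0 < ε → ∀ᶠ N : ℕ in atTop,
      ‖∑ n ∈ range N, (e (h * f (n + m) x) - avg μ (cell hf hη n) (fun y => e (h * f (n + m) y)) x)‖ ≤ ε * N := by
  have hconj : Measurable (starRingEnd ℂ) := Complex.continuous_conj.measurable
  have hθ : 0 < θ₀ := zero_lt_one.trans hf.hθ
  obtain ⟨g, hg⟩ : ∃ g : ℕ → ℝ → ℂ, g = fun n x => e (h * f (n + m) x) := ⟨_, rfl⟩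
  have hgm : ∀ n, Measurable (g n) := fun n => by
    rw [hg]
    exact (continuous_e.comp (continuous_const.mul (hf.cf (n + m)))).measurable
  have hg1 : ∀ n x, ‖g n x‖ ≤ 1 := fun n x => by
    rw [hg]
    exact (norm_e _).le
  obtain ⟨A, hA⟩ : ∃ A : ℕ → ℕ → ℝ → ℂ, A = fun n l x => avg μ (cell hf hη n) (g l) x := ⟨_, rfl⟩
  have hAm : ∀ n l, Measurable (A n l) := fun n l => by
    rw [hA]
    exact avg_meas _ (cell_meas hf hη n) _
  have hA1 : ∀ n l x, ‖A n l x‖ ≤ 1 := fun n l x => by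
    rw [hA]
    exact avg_norm _ _ zero_le_one (hg1 l) x
  obtain ⟨d, hd⟩ : ∃ d : ℕ → ℝ → ℂ, d = fun n x => g n x - A n n x := ⟨_, rfl⟩
  have hdm : ∀ n, Measurable (d n) := fun n => by
    rw [hd]
    exact (hgm n).sub (hAm n n)
  have hd2 : ∀ n x, ‖d n x‖ ≤ 2 := fun n x => by
    rw [hd]
    refine (norm_sub_le _ _).trans ?_
    linarith [hg1 n x, hA1 n n x]
  have hAE : ∀ᵐ x ∂μ, x ∈ Set.Icc a b := by
    rw [ae_iff]
    exact hμ
  have hρ0 : 0 ≤ θ₀⁻¹ := by positivity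
  have hρ1 : θ₀⁻¹ < 1 := inv_lt_one_of_one_lt₀ hf.hθ
  obtain ⟨K, hK⟩ : ∃ K : ℝ, K = (4 + 4 * Real.pi * |(h : ℝ)|) * θ₀ ^ m := ⟨_, rfl⟩
  have hK0 : 0 ≤ K := by
    rw [hK]
    positivity
  have hcor : ∀ j n, j < n → ‖∫ x, d n x * (starRingEnd ℂ) (d j x) ∂μ‖ ≤ K * (θ₀⁻¹) ^ (n - j) := by
    intro j n hjn
    rcases le_or_gt (j + m) n with hc | hc
    · -- the orthogonal part
      have i1 : Integrable (fun x => d n x * (starRingEnd ℂ) (g j x - A n j x)) μ := by
        refine (integrable_const (4 : ℝ)).mono' ((hdm n).mul (hconj.comp ((hgm j).sub (hAm n j)))).aestronglyMeasurable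
          (Eventually.of_forall fun x => ?_)
        show ‖d n x * (starRingEnd ℂ) (g j x - A n j x)‖ ≤ 4
        rw [norm_mul, RCLike.norm_conj]
        have h1 := hd2 n x
        have h2 : ‖g j x - A n j x‖ ≤ 2 := (norm_sub_le _ _).trans (by linarith [hg1 j x, hA1 n j x])
        calc ‖d n x‖ * ‖g j x - A n j x‖ ≤ 2 * 2 := mul_le_mul h1 h2 (norm_nonneg _) zero_le_two
          _ = 4 := by norm_num
      have i2 : Integrable (fun x => d n x * (starRingEnd ℂ) (A n j x - A j j x)) μ := by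
        refine (integrable_const (4 : ℝ)).mono' ((hdm n).mul (hconj.comp ((hAm n j).sub (hAm j j)))).aestronglyMeasurable
          (Eventually.of_forall fun x => ?_)
        show ‖d n x * (starRingEnd ℂ) (A n j x - A j j x)‖ ≤ 4
        rw [norm_mul, RCLike.norm_conj]
        have h1 := hd2 n x
        have h2 : ‖A n j x - A j j x‖ ≤ 2 := (norm_sub_le _ _).trans (by linarith [hA1 j j x, hA1 n j x])
        calc ‖d n x‖ * ‖A n j x - A j j x‖ ≤ 2 * 2 := mul_le_mul h1 h2 (norm_nonneg _) zero_le_two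
          _ = 4 := by norm_num
      have h1 : ∫ x, d n x * (starRingEnd ℂ) (d j x) ∂μ = ∫ x, d n x * (starRingEnd ℂ) (g j x - A n j x) ∂μ := by
        have h2 : ∀ x, d n x * (starRingEnd ℂ) (d j x) = d n x * (starRingEnd ℂ) (g j x - A n j x) +
            d n x * (starRingEnd ℂ) (A n j x - A j j x) := fun x => by
          rw [← mul_add, ← map_add]
          congr 2
          rw [hd]
          ring
        rw [integral_congr_ae (Eventually.of_forall h2), integral_add i1 i2]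
        have h3 : ∫ x, d n x * (starRingEnd ℂ) (A n j x - A j j x) ∂μ = 0 := by
          rw [hd, hA]
          refine avg_orth (cell hf hη n) (cell_meas hf hη n) (hgm n) (hg1 n)
            (ψ := fun x => (starRingEnd ℂ) (avg μ (cell hf hη n) (g j) x - avg μ (cell hf hη j) (g j) x)) ?_ (C' := 2) ?_ ?_
          · have := hconj.comp ((hAm n j).sub (hAm j j))
            rw [hA] at this
            exact this
          · intro x
            rw [RCLike.norm_conj]
            have h4 := hA1 n j x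
            have h5 := hA1 j j x
            rw [hA] at h4 h5
            exact (norm_sub_le _ _).trans (by linarith)
          · intro x y hxy
            rw [avg_const _ _ hxy, avg_const _ _ (cell_nest hf hη hjn.le hxy)]
        rw [h3, add_zero]
      rw [h1]
      have hosc : ∀ᵐ x ∂μ, ‖g j x - A n j x‖ ≤ 2 * Real.pi * |(h : ℝ)| * (θ₀⁻¹) ^ (n - j - m) := by
        rw [hA]
        refine avg_osc (cell hf hη n) (cell_meas hf hη n) (hgm j) (hg1 j) hAE ?_
        intro x hx y hy hxy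
        have h2 : j + m + (n - j - m) = n := by omega
        have h3 := cell_osc hf hη (j + m) (n - j - m) hx hy (by rw [h2]; exact hxy)
        rw [hg]
        refine (norm_e_sub _ _).trans ?_
        rw [← mul_sub, abs_mul, mul_assoc (2 * Real.pi)]
        apply mul_le_mul_of_nonneg_left _ (by positivity)
        apply mul_le_mul_of_nonneg_left _ (abs_nonneg _)
        refine h3.trans ?_
        exact mul_le_of_le_one_left (by positivity) hη1
      refine (norm_integral_le_of_norm_le_const (C := K * (θ₀⁻¹) ^ (n - j)) ?_).trans ?_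
      · filter_upwards [hosc] with x hx
        rw [norm_mul, RCLike.norm_conj]
        refine (mul_le_mul (hd2 n x) hx (norm_nonneg _) zero_le_two).trans ?_
        have h2 : (θ₀⁻¹) ^ (n - j) = (θ₀⁻¹) ^ (n - j - m) * (θ₀⁻¹) ^ m := by
          rw [← pow_add]
          congr 1
          omega
        have h3 : θ₀ ^ m * (θ₀⁻¹) ^ m = 1 := by
          rw [← mul_pow, mul_inv_cancel₀ hθ.ne', one_pow]
        have h4 : K * (θ₀⁻¹) ^ (n - j) = (4 + 4 * Real.pi * |(h : ℝ)|) * (θ₀⁻¹) ^ (n - j - m) := by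
          rw [hK, h2]
          calc (4 + 4 * Real.pi * |(h : ℝ)|) * θ₀ ^ m * ((θ₀⁻¹) ^ (n - j - m) * (θ₀⁻¹) ^ m) =
              (4 + 4 * Real.pi * |(h : ℝ)|) * (θ₀⁻¹) ^ (n - j - m) * (θ₀ ^ m * (θ₀⁻¹) ^ m) := by ring
            _ = _ := by rw [h3, mul_one]
        rw [h4]
        have h5 : 0 ≤ (θ₀⁻¹) ^ (n - j - m) := by positivity
        nlinarith
      · rw [probReal_univ, mul_one]
    · -- the trivial bound
      have h1 : ‖∫ x, d n x * (starRingEnd ℂ) (d j x) ∂μ‖ ≤ 4 * μ.real Set.univ := by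
        refine norm_integral_le_of_norm_le_const (Eventually.of_forall fun x => ?_)
        rw [norm_mul, RCLike.norm_conj]
        calc ‖d n x‖ * ‖d j x‖ ≤ 2 * 2 := mul_le_mul (hd2 n x) (hd2 j x) (norm_nonneg _) zero_le_two
          _ = 4 := by norm_num
      rw [probReal_univ, mul_one] at h1
      refine h1.trans ?_
      have h2 : (θ₀⁻¹) ^ m ≤ (θ₀⁻¹) ^ (n - j) := pow_le_pow_of_le_one hρ0 hρ1.le (by omega)
      have h3 : θ₀ ^ m * (θ₀⁻¹) ^ m = 1 := by
        rw [← mul_pow, mul_inv_cancel₀ hθ.ne', one_pow]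
      calc (4 : ℝ) ≤ (4 + 4 * Real.pi * |(h : ℝ)|) * 1 := by
            have : 0 ≤ 4 * Real.pi * |(h : ℝ)| := by positivity
            linarith
        _ = K * (θ₀⁻¹) ^ m := by
          rw [hK]
          linear_combination (-(4 + 4 * Real.pi * |(h : ℝ)|)) * h3
        _ ≤ K * (θ₀⁻¹) ^ (n - j) := mul_le_mul_of_nonneg_left h2 hK0
  have h2 := HQ.as_small d hdm hd2 _ (HQ.second d hdm hd2 K (θ₀⁻¹) hK0 hρ0 hρ1 hcor)
  rw [hd, hA, hg] at h2
  exact h2

/-- powers decay -/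
theorem pow_small {B θ₀ C : ℝ} (hB0 : 0 < B) (hθ : 0 < θ₀) (hB : B < θ₀ ^ 2) (K : ℝ) :
    ∀ᶠ n : ℕ in atTop, K * (C * ((n : ℝ) + 1) ^ 2 * B ^ n) ≤ (θ₀ ^ n) ^ 2 := by
  obtain ⟨r, hr⟩ : ∃ r, r = B / θ₀ ^ 2 := ⟨_, rfl⟩
  have hr0 : 0 < r := by rw [hr]; positivity
  have hr1 : r < 1 := by
    rw [hr, div_lt_one (by positivity)]
    exact hB
  have h1 : Tendsto (fun n : ℕ => (n : ℝ) ^ 2 * r ^ n) atTop (𝓝 0) :=
    tendsto_pow_const_mul_const_pow_of_abs_lt_one 2 (by rw [abs_of_pos hr0]; exact hr1)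
  have h2 : Tendsto (fun n : ℕ => K * C / r * (((n + 1 : ℕ) : ℝ) ^ 2 * r ^ (n + 1))) atTop (𝓝 (K * C / r * 0)) :=
    (h1.comp (tendsto_add_atTop_nat 1)).const_mul _
  rw [mul_zero] at h2
  filter_upwards [h2.eventually (gt_mem_nhds one_pos)] with n hn
  have h3 : r ^ n = B ^ n / (θ₀ ^ n) ^ 2 := by
    rw [hr, div_pow, ← pow_mul, ← pow_mul, mul_comm 2 n]
  have h4 : K * C / r * (((n + 1 : ℕ) : ℝ) ^ 2 * r ^ (n + 1)) = K * (C * ((n : ℝ) + 1) ^ 2 * B ^ n) / (θ₀ ^ n) ^ 2 := by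
    rw [pow_succ r n, h3]
    push_cast
    field_simp
  rw [h4, div_lt_one (by positivity)] at hn
  exact hn.le

/-- the geometry of the cells -/
theorem cell_geo (hf : Fam a b θ₀ B C f f1 f2) (hB : B < θ₀ ^ 2) {η : ℝ} (hη : 0 < η) {x : ℝ}
    (hx : x ∈ Set.Ioo a b) : ∀ᶠ n : ℕ in atTop, ∃ p q : ℝ, a ≤ p ∧ p ≤ x ∧ x < q ∧ q ≤ b ∧
      η / 4 ≤ (q - p) * f1 n p ∧ (q - p) * f1 n q ≤ η ∧ cell hf hη n ⁻¹' {cell hf hη n x} = Set.Ico p q := by
  have hθ : 0 < θ₀ := zero_lt_one.trans hf.hθ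
  have ha : a ∈ Set.Icc a b := ⟨le_rfl, hf.hab.le⟩
  have hC : 0 < C := by
    have h1 := hf.u1 0 a ha
    have h2 := hf.p0 a ha
    simp only [Nat.cast_zero, zero_add, mul_one, pow_zero] at h1
    linarith
  have hB0 : 0 < B := by
    have h1 := hf.u1 1 a ha
    have h2 := f1_pow hf 1 ha
    rw [pow_one] at h1 h2
    have h3 : 0 < C * ((1 : ℕ) + 1) * B := hθ.trans_le (h2.trans h1)
    exact (pos_iff_pos_of_mul_pos h3).1 (by positivity)
  have hpw : Tendsto (fun n : ℕ => η * (θ₀⁻¹) ^ n) atTop (𝓝 (η * 0)) :=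
    (tendsto_pow_atTop_nhds_zero_of_lt_one (by positivity) (inv_lt_one_of_one_lt₀ hf.hθ)).const_mul _
  rw [mul_zero] at hpw
  have hd : 0 < min (x - a) ((b - x) / 2) := lt_min (sub_pos.2 hx.1) (half_pos (sub_pos.2 hx.2))
  filter_upwards [pow_small hB0 hθ hB (C := C) (4 * η), hpw.eventually (gt_mem_nhds hd),
    (tendsto_pow_atTop_atTop_of_one_lt hf.hθ).eventually_gt_atTop η] with n h1 h2 h3
  obtain ⟨j, hj⟩ : ∃ j, j = jn hf hη n x := ⟨_, rfl⟩
  have hc := jn_spec hf hη n x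
  rw [← hj] at hc
  unfold Cnd at hc
  have hpow : θ₀ ^ n ≤ η * 2 ^ j := (f1_pow hf n (clamp_mem hf.hab _)).trans hc
  have hlen : ((2 : ℝ) ^ j)⁻¹ ≤ η * (θ₀⁻¹) ^ n := by
    rw [inv_pow, ← div_eq_mul_inv, le_div_iff₀ (by positivity), inv_mul_le_iff₀ (by positivity)]
    linarith
  have hlen' : ((2 : ℝ) ^ j)⁻¹ < min (x - a) ((b - x) / 2) := hlen.trans_lt h2
  have hl1 := lt_of_lt_of_le hlen' (min_le_left _ _)
  have hl2 := lt_of_lt_of_le hlen' (min_le_right _ _)
  have hp := Lg_le j x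
  have hq := lt_Rg j x
  have hqp := Rg_sub j x
  have hj1 : j ≠ 0 := by
    rintro rfl
    rw [pow_zero, mul_one] at hpow
    linarith
  obtain ⟨i, rfl⟩ := Nat.exists_eq_succ_of_ne_zero hj1
  rw [Nat.succ_eq_add_one] at *
  have hnc := jn_min hf hη (n := n) (j := i) (x := x) (by rw [← hj]; exact Nat.lt_succ_self i)
  unfold Cnd at hnc
  have hnc := not_le.1 hnc
  -- the parent interval
  have hq' := lt_Rg i x
  have hp' := Lg_le i x
  have hqp' := Rg_sub i x
  have h2i : ((2 : ℝ) ^ i)⁻¹ = 2 * (2 ^ (i + 1))⁻¹ := by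
    rw [pow_succ]
    field_simp
  have hRb : Rg i x ≤ b := by linarith
  have hRm : Rg i x ∈ Set.Icc a b := ⟨by linarith [hx.1], hRb⟩
  have hLm : Lg (i + 1) x ∈ Set.Icc a b := ⟨by linarith, by linarith [hx.2]⟩
  have hRm' : Rg (i + 1) x ∈ Set.Icc a b := ⟨by linarith [hx.1], by linarith⟩
  rw [ft_eq hRm] at hnc
  rw [ft_eq hRm'] at hc
  refine ⟨Lg (i + 1) x, Rg (i + 1) x, hLm.1, hp, hq, hRm'.2, ?_, ?_, ?_⟩
  · -- the lower bound
    have hLR : Lg (i + 1) x < Rg i x := by linarith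
    have h4 : f1 n (Rg i x) - f1 n (Lg (i + 1) x) ≤ C * ((n : ℝ) + 1) ^ 2 * B ^ n * (Rg i x - Lg (i + 1) x) := by
      obtain ⟨ξ, hξ, hξ'⟩ := exists_hasDerivAt_eq_slope (f1 n) (f2 n) hLR
        (fun t ht => (hf.d2 n t ⟨hLm.1.trans ht.1, ht.2.trans hRm.2⟩).continuousAt.continuousWithinAt)
        fun t ht => hf.d2 n t ⟨hLm.1.trans ht.1.le, ht.2.le.trans hRm.2⟩
      have h5 := hf.u2 n ξ ⟨hLm.1.trans hξ.1.le, hξ.2.le.trans hRm.2⟩
      rw [hξ', div_le_iff₀ (by linarith)] at h5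
      exact h5
    have h5 : Rg i x - Lg (i + 1) x ≤ 2 * (2 ^ (i + 1))⁻¹ := by
      have : Lg i x ≤ Lg (i + 1) x := by
        have h6 : 2 * Dg i x ≤ Dg (i + 1) x := by
          have := Dg_half i x
          omega
        have h7 : (2 : ℝ) * Dg i x ≤ Dg (i + 1) x := by exact_mod_cast h6
        unfold Lg
        rw [pow_succ, div_le_div_iff₀ (by positivity) (by positivity)]
        have h8 : (0 : ℝ) < 2 ^ i := by positivity
        nlinarith
      linarith
    have h6 : f1 n (Rg i x) - f1 n (Lg (i + 1) x) ≤ θ₀ ^ n / 2 := by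
      have h7 : 0 ≤ C * ((n : ℝ) + 1) ^ 2 * B ^ n := by positivity
      have h8 : Rg i x - Lg (i + 1) x ≤ 2 * (η * (θ₀⁻¹) ^ n) := by linarith
      refine h4.trans ((mul_le_mul_of_nonneg_left h8 h7).trans ?_)
      rw [inv_pow, ← div_eq_mul_inv, ← mul_assoc, mul_div_assoc', div_le_iff₀ (by positivity)]
      nlinarith
    have h7 : θ₀ ^ n ≤ f1 n (Rg i x) := f1_pow hf n hRm
    have h8 : f1 n (Rg i x) / 2 ≤ f1 n (Lg (i + 1) x) := by linarith
    rw [hqp, le_inv_mul_iff₀ (by positivity)]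
    rw [pow_succ]
    linarith
  · rw [hqp, inv_mul_le_iff₀ (by positivity)]
    linarith
  · rw [cell_fib, ← hj]

theorem lln_proof (hf : Fam a b θ₀ B C f f1 f2) (hB : B < θ₀ ^ 2) (μ : Measure ℝ) [IsProbabilityMeasure μ]
    (hμ : μ (Set.Icc a b)ᶜ = 0) (η : ℝ) (hη : 0 < η) (hη1 : η ≤ 1) (m : ℕ) (h : ℤ) (c : ℂ) :
    ∀ᵐ x ∂μ, x ∈ Set.Ioo a b → ∀ ε : ℝ, 0 < ε →
      (∀ᶠ n : ℕ in atTop, ∀ p q : ℝ, a ≤ p → p ≤ x → x < q → q ≤ b →
        η / 4 ≤ (q - p) * f1 n p → (q - p) * f1 n q ≤ η →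
          ‖∫ y in Set.Ico p q, (e (h * f (n + m) y) - c) ∂μ‖ ≤ ε * μ.real (Set.Ico p q)) →
      ∀ᶠ N : ℕ in atTop, ‖∑ n ∈ range N, (e (h * f n x) - c)‖ ≤ 2 * ε * N := by
  have hpos : ∀ᵐ x ∂μ, ∀ n : ℕ, 0 < μ.real (cell hf hη n ⁻¹' {cell hf hη n x}) :=
    ae_all_iff.2 fun n => ae_pos (cell hf hη n)
  filter_upwards [dev_small hf μ hμ hη hη1 m h, hpos] with x hdev hx hxab ε hε hav
  -- the averages are close to `c`
  have h1 : ∀ᶠ n : ℕ in atTop, ‖avg μ (cell hf hη n) (fun y => e (h * f (n + m) y)) x - c‖ ≤ ε := by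
    filter_upwards [hav, cell_geo hf hB hη hxab] with n hn ⟨p, q, h1, h2, h3, h4, h5, h6, h7⟩
    have h8 := hn p q h1 h2 h3 h4 h5 h6
    have h9 := hx n
    have h10 : avg μ (cell hf hη n) (fun y => e (h * f (n + m) y)) x - c =
        ((μ.real (Set.Ico p q))⁻¹ : ℝ) • ∫ y in Set.Ico p q, (e (h * f (n + m) y) - c) ∂μ := by
      have hgi : Integrable (fun y => e (h * f (n + m) y)) μ := (integrable_const (1 : ℝ)).mono'
        (continuous_e.comp (continuous_const.mul (hf.cf (n + m)))).measurable.aestronglyMeasurable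
        (Eventually.of_forall fun y => (norm_e _).le)
      rw [h7] at h9
      rw [integral_sub hgi.integrableOn (integrable_const _).integrableOn, setIntegral_const, smul_sub, smul_smul,
        inv_mul_cancel₀ h9.ne', one_smul]
      unfold avg
      rw [h7]
    rw [h10, norm_smul, Real.norm_eq_abs, abs_of_nonneg (inv_nonneg.2 measureReal_nonneg)]
    rw [h7] at h9
    rw [inv_mul_le_iff₀ h9, mul_comm]
    exact h8
  obtain ⟨n₀, hn₀⟩ := eventually_atTop.1 h1
  -- bounded errors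
  have hc1 : ∀ n, ‖e (h * f n x) - c‖ ≤ 1 + ‖c‖ := fun n => (norm_sub_le _ _).trans (by rw [norm_e])
  have hc2 : ∀ n, ‖avg μ (cell hf hη n) (fun y => e (h * f (n + m) y)) x - c‖ ≤ 1 + ‖c‖ := fun n =>
    (norm_sub_le _ _).trans (by
      have := avg_norm (μ := μ) (cell hf hη n) (fun y => e (h * f (n + m) y)) zero_le_one (fun y => (norm_e _).le) x
      linarith)
  obtain ⟨K, hK⟩ : ∃ K : ℝ, K = (n₀ + 2 * m) * (1 + ‖c‖) := ⟨_, rfl⟩
  filter_upwards [hdev (ε / 4) (by positivity), eventually_ge_atTop ⌈4 / ε * K⌉₊] with N hN hN'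
  have h2 : ∑ n ∈ range N, (e (h * f n x) - c) = ∑ n ∈ range N, (e (h * f (n + m) x) - c) +
      (∑ n ∈ range m, (e (h * f n x) - c) - ∑ n ∈ range m, (e (h * f (N + n) x) - c)) := by
    have h3 := sum_range_add (fun n => e (h * f n x) - c) N m
    have h4 := sum_range_add (fun n => e (h * f n x) - c) m N
    have h5 : ∑ n ∈ range N, (e (h * f (m + n) x) - c) = ∑ n ∈ range N, (e (h * f (n + m) x) - c) :=
      sum_congr rfl fun n _ => by rw [add_comm]
    rw [add_comm m N, h5] at h4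
    linear_combination h4 - h3
  have h3 : ∑ n ∈ range N, (e (h * f (n + m) x) - c) = ∑ n ∈ range N, (e (h * f (n + m) x) -
      avg μ (cell hf hη n) (fun y => e (h * f (n + m) y)) x) + ∑ n ∈ range N,
      (avg μ (cell hf hη n) (fun y => e (h * f (n + m) y)) x - c) := by
    rw [← sum_add_distrib]
    exact sum_congr rfl fun n _ => by ring
  have h4 : ‖∑ n ∈ range N, (avg μ (cell hf hη n) (fun y => e (h * f (n + m) y)) x - c)‖ ≤ n₀ * (1 + ‖c‖) + ε * N := by
    refine (norm_sum_le _ _).trans ?_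
    have h5 : ∀ n ∈ range N, ‖avg μ (cell hf hη n) (fun y => e (h * f (n + m) y)) x - c‖ ≤
        (if n < n₀ then (1 + ‖c‖) else 0) + ε := by
      intro n _
      split_ifs with h6
      · linarith [hc2 n]
      · rw [zero_add]
        exact hn₀ n (not_lt.1 h6)
    refine (sum_le_sum h5).trans ?_
    rw [sum_add_distrib, sum_const, card_range, nsmul_eq_mul, mul_comm (N : ℝ) ε]
    apply add_le_add_left
    rw [← sum_filter, sum_const, nsmul_eq_mul]
    apply mul_le_mul_of_nonneg_right _ (by positivity)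
    have h6 : ((range N).filter fun n => n < n₀) ⊆ range n₀ := by
      intro n hn
      rw [mem_filter] at hn
      exact mem_range.2 hn.2
    have h7 := card_le_card h6
    rw [card_range] at h7
    exact_mod_cast h7
  have h5 : ∀ u : ℕ → ℕ, ‖∑ n ∈ range m, (e (h * f (u n) x) - c)‖ ≤ m * (1 + ‖c‖) := by
    intro u
    refine (norm_sum_le _ _).trans ((sum_le_card_nsmul _ _ _ fun n _ => hc1 (u n)).trans ?_)
    rw [card_range, nsmul_eq_mul]
  have h6 : K ≤ ε / 4 * N := by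
    have h7 := Nat.ceil_le.1 hN'
    rw [div_mul_eq_mul_div, div_le_iff₀ hε] at h7
    linarith
  have h7 : ‖∑ n ∈ range N, (e (h * f n x) - c)‖ ≤ (ε / 4 * N + (n₀ * (1 + ‖c‖) + ε * N)) +
      (m * (1 + ‖c‖) + m * (1 + ‖c‖)) := by
    rw [h2, h3]
    refine (norm_add_le _ _).trans (add_le_add ((norm_add_le _ _).trans (add_le_add hN h4)) ?_)
    exact (norm_sub_le _ _).trans (add_le_add (h5 fun n => n) (h5 fun n => N + n))
  have h8 : n₀ * (1 + ‖c‖) + (m * (1 + ‖c‖) + m * (1 + ‖c‖)) = K := by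
    rw [hK]
    ring
  have h9 : 0 ≤ ε * N := by positivity
  linarith

end Pool.Agent.Helper46.MF
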