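import Mathlib

/-!
# Averages over the cells of a countable partition
-/

set_option autoImplicit false

namespace Pool.Agent.Helper46.MF

open Finset MeasureTheory Filter Topology

variable {Ω : Type*} [MeasurableSpace Ω] {μ : Measure Ω} [IsProbabilityMeasure μ] {I : Type*} [Countable I]

/-- the average of `g` over the cell of `x` -/
noncomputable def avg (μ : Measure Ω) (π : Ω → I) (g : Ω → ℂ) (x : Ω) : ℂ :=
  ((μ.real (π ⁻¹' {π x}))⁻¹ : ℝ) • ∫ y in π ⁻¹' {π x}, g y ∂μ

omit [Countable I] in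
theorem avg_const (π : Ω → I) (g : Ω → ℂ) {x y : Ω} (h : π y = π x) : avg μ π g y = avg μ π g x := by
  unfold avg
  rw [h]

omit [Countable I] in
theorem avg_norm (π : Ω → I) (g : Ω → ℂ) {C : ℝ} (hC : 0 ≤ C) (hg : ∀ x, ‖g x‖ ≤ C) (x : Ω) : ‖avg μ π g x‖ ≤ C := by
  unfold avg
  rw [norm_smul, Real.norm_eq_abs, abs_of_nonneg (inv_nonneg.2 measureReal_nonneg)]
  have h1 : ‖∫ y in π ⁻¹' {π x}, g y ∂μ‖ ≤ C * μ.real (π ⁻¹' {π x}) :=
    norm_setIntegral_le_of_norm_le_const (measure_lt_top _ _) fun y _ => hg y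
  rcases eq_or_ne (μ.real (π ⁻¹' {π x})) 0 with h0 | h0
  · rw [h0, inv_zero, zero_mul]
    exact hC
  · have hpos : 0 < μ.real (π ⁻¹' {π x}) := lt_of_le_of_ne measureReal_nonneg (Ne.symm h0)
    rw [inv_mul_le_iff₀ hpos]
    linarith

theorem avg_meas (π : Ω → I) (hπ : ∀ i, MeasurableSet (π ⁻¹' {i})) (g : Ω → ℂ) : Measurable (avg μ π g) := by
  letI : MeasurableSpace I := ⊤
  have h1 : Measurable π := measurable_to_countable' hπ
  have h2 : avg μ π g = (fun i => ((μ.real (π ⁻¹' {i}))⁻¹ : ℝ) • ∫ y in π ⁻¹' {i}, g y ∂μ) ∘ π := rfl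
  rw [h2]
  exact measurable_from_top.comp h1

/-- almost every point is in a cell of positive measure -/
theorem ae_pos (π : Ω → I) : ∀ᵐ x ∂μ, 0 < μ.real (π ⁻¹' {π x}) := by
  have h1 : μ (⋃ i ∈ {i : I | μ (π ⁻¹' {i}) = 0}, π ⁻¹' {i}) = 0 := by
    rw [measure_biUnion_null_iff (Set.to_countable _)]
    exact fun i hi => hi
  rw [ae_iff]
  refine measure_mono_null ?_ h1
  intro x hx
  have hx' : ¬ 0 < μ.real (π ⁻¹' {π x}) := hx
  rw [Set.mem_iUnion₂]
  refine ⟨π x, ?_, rfl⟩
  have h2 : μ.real (π ⁻¹' {π x}) = 0 := le_antisymm (not_lt.1 hx') measureReal_nonneg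
  show μ (π ⁻¹' {π x}) = 0
  rw [measureReal_def, ENNReal.toReal_eq_zero_iff] at h2
  rcases h2 with h2 | h2
  · exact h2
  · exact absurd h2 (measure_ne_top _ _)

/-- the deviation from the average is orthogonal to the functions which are constant on the cells -/
theorem avg_orth (π : Ω → I) (hπ : ∀ i, MeasurableSet (π ⁻¹' {i})) {g ψ : Ω → ℂ} (hg : Measurable g) {C : ℝ}
    (hgC : ∀ x, ‖g x‖ ≤ C) (hψ : Measurable ψ) {C' : ℝ} (hψC : ∀ x, ‖ψ x‖ ≤ C') (hc : ∀ x y, π y = π x → ψ y = ψ x) :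
    ∫ x, (g x - avg μ π g x) * ψ x ∂μ = 0 := by
  obtain ⟨x₀⟩ : Nonempty Ω := nonempty_of_isProbabilityMeasure μ
  have hC : 0 ≤ C := (norm_nonneg _).trans (hgC x₀)
  have hgi : Integrable g μ := (integrable_const C).mono' hg.aestronglyMeasurable (Eventually.of_forall hgC)
  have him : Measurable fun x => (g x - avg μ π g x) * ψ x := (hg.sub (avg_meas π hπ g)).mul hψ
  have hi : Integrable (fun x => (g x - avg μ π g x) * ψ x) μ := by
    refine (integrable_const (2 * C * C')).mono' him.aestronglyMeasurable (Eventually.of_forall fun x => ?_)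
    rw [norm_mul]
    apply mul_le_mul _ (hψC x) (norm_nonneg _) (by positivity)
    refine (norm_sub_le _ _).trans ?_
    linarith [hgC x, avg_norm (μ := μ) π g hC hgC x]
  have hU : ⋃ i : I, π ⁻¹' {i} = Set.univ := by
    ext x
    simp
  have hdisj : Pairwise (Function.onFun Disjoint fun i : I => π ⁻¹' {i}) := by
    intro i j hij
    rw [Function.onFun, Set.disjoint_left]
    intro x hx hx'
    exact hij (hx.symm.trans hx')
  have h1 := integral_iUnion (μ := μ) (f := fun x => (g x - avg μ π g x) * ψ x) (s := fun i : I => π ⁻¹' {i}) hπ hdisj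
    (by rw [hU]; exact hi.integrableOn)
  rw [hU, setIntegral_univ] at h1
  rw [h1]
  have h2 : ∀ i, ∫ x in π ⁻¹' {i}, (g x - avg μ π g x) * ψ x ∂μ = 0 := by
    intro i
    rcases Set.eq_empty_or_nonempty (π ⁻¹' {i}) with he | ⟨x₁, hx₁⟩
    · rw [he, setIntegral_empty]
    · have hx₁' : π x₁ = i := hx₁
      have h3 : ∫ x in π ⁻¹' {i}, (g x - avg μ π g x) * ψ x ∂μ = ∫ x in π ⁻¹' {i}, (g x - avg μ π g x₁) * ψ x₁ ∂μ := by
        refine setIntegral_congr_fun (hπ i) fun x hx => ?_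
        have hx' : π x = i := hx
        show (g x - avg μ π g x) * ψ x = (g x - avg μ π g x₁) * ψ x₁
        rw [avg_const (μ := μ) π g (hx'.trans hx₁'.symm), hc x₁ x (hx'.trans hx₁'.symm)]
      rw [h3, integral_mul_const]
      have h4 : ∫ x in π ⁻¹' {i}, (g x - avg μ π g x₁) ∂μ = 0 := by
        rw [integral_sub hgi.integrableOn (integrable_const _).integrableOn, setIntegral_const]
        unfold avg
        rw [hx₁']
        rcases eq_or_ne (μ.real (π ⁻¹' {i})) 0 with h0 | h0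
        · rw [h0, zero_smul, sub_zero]
          have h5 : μ (π ⁻¹' {i}) = 0 := by
            rw [measureReal_def, ENNReal.toReal_eq_zero_iff] at h0
            rcases h0 with h2 | h2
            · exact h2
            · exact absurd h2 (measure_ne_top _ _)
          exact setIntegral_measure_zero _ h5
        · rw [smul_smul, mul_inv_cancel₀ h0, one_smul, sub_self]
      rw [h4, zero_mul]
  exact (tsum_congr h2).trans tsum_zero

/-- the deviation from the average is at most the oscillation -/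
theorem avg_osc (π : Ω → I) (hπ : ∀ i, MeasurableSet (π ⁻¹' {i})) {g : Ω → ℂ} (hg : Measurable g) {C : ℝ}
    (hgC : ∀ x, ‖g x‖ ≤ C) {A : Set Ω} (hA : ∀ᵐ x ∂μ, x ∈ A) {δ : ℝ}
    (hosc : ∀ x ∈ A, ∀ y ∈ A, π y = π x → ‖g x - g y‖ ≤ δ) : ∀ᵐ x ∂μ, ‖g x - avg μ π g x‖ ≤ δ := by
  have hgi : Integrable g μ := (integrable_const C).mono' hg.aestronglyMeasurable (Eventually.of_forall hgC)
  filter_upwards [ae_pos (μ := μ) π, hA] with x hx hxA
  have h1 : g x - avg μ π g x = ((μ.real (π ⁻¹' {π x}))⁻¹ : ℝ) • ∫ y in π ⁻¹' {π x}, (g x - g y) ∂μ := by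
    rw [integral_sub (integrable_const _).integrableOn hgi.integrableOn, setIntegral_const, smul_sub, smul_smul,
      inv_mul_cancel₀ hx.ne', one_smul]
    rfl
  rw [h1, norm_smul, Real.norm_eq_abs, abs_of_nonneg (inv_nonneg.2 measureReal_nonneg)]
  have h2 : ‖∫ y in π ⁻¹' {π x}, (g x - g y) ∂μ‖ ≤ δ * μ.real (π ⁻¹' {π x}) := by
    refine norm_setIntegral_le_of_norm_le_const_ae' (measure_lt_top _ _) ?_
    filter_upwards [hA] with y hyA hy
    exact hosc x hxA y hyA hy
  rw [inv_mul_le_iff₀ hx]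
  linarith

end Pool.Agent.Helper46.MF
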